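import Pool.Agent.ZRT.StmtsA

/-! # YB5: the rotation angle on the cylinder -/

noncomputable section

open scoped ContDiff Topology RealInnerProductSpace
open Set

namespace Pool.Agent.ZRT.H39

open Pool.Agent.ZRT Pool.Agent.RF Pool.Agent.MVS Pool.Agent.SecondKind Pool.Agent.MinVolSphere

theorem vc_surj (x : E5) : vc (fun i => x i) = x := by
  ext i; simp [vc]

theorem vc_apply (x : Fin 5 → ℝ) (i : Fin 5) : (vc x) i = x i := rfl

theorem inner_vc (x y : Fin 5 → ℝ) : ⟪vc x, vc y⟫ = ∑ i, x i * y i := by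
  rw [PiLp.inner_apply]
  refine Finset.sum_congr rfl fun i _ => ?_
  rw [vc_apply, vc_apply]
  simp only [RCLike.inner_apply, conj_trivial]
  ring

theorem norm_vc (x : Fin 5 → ℝ) (hx : OnSphere x) : ‖vc x‖ = 1 := by
  have h : ‖vc x‖ ^ 2 = 1 := by
    rw [← real_inner_self_eq_norm_sq, inner_vc]
    unfold OnSphere at hx
    rw [← hx]
    exact Finset.sum_congr rfl fun i _ => by ring
  have h0 := norm_nonneg (vc x)
  nlinarith

theorem vc_inj {x y : Fin 5 → ℝ} (h : vc x = vc y) : x = y := by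
  funext i
  have := congrArg (fun z : E5 => z i) h
  simpa [vc_apply] using this

/-- differentiate `‖f x‖² = ‖x‖²` -/
theorem inner_fderiv {G : E5 → Bil E5} {f : E5 → E5} (hf : IsIsoC G f) (x : E5)
    (hx : x ∈ Om (Fin 5)) (v : E5) : ⟪f x, fderiv ℝ f x v⟫ = ⟪x, v⟫ := by
  have hop : IsOpen (Om (Fin 5)) := by
    have : Om (Fin 5) = {(0 : E5)}ᶜ := by
      ext y; rfl
    rw [this]; exact isOpen_compl_singleton
  have hd : DifferentiableAt ℝ f x :=
    (hf.smooth.contDiffAt (hop.mem_nhds hx)).differentiableAt (by simp)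
  have h1 : HasFDerivAt (fun y => ⟪f y, f y⟫)
      ((fderivInnerCLM ℝ (f x, f x)).comp ((fderiv ℝ f x).prod (fderiv ℝ f x))) x :=
    hd.hasFDerivAt.inner ℝ hd.hasFDerivAt
  have h2 : HasFDerivAt (fun y : E5 => ⟪y, y⟫)
      ((fderivInnerCLM ℝ (x, x)).comp
        ((ContinuousLinearMap.id ℝ E5).prod (ContinuousLinearMap.id ℝ E5))) x :=
    (hasFDerivAt_id x).inner ℝ (hasFDerivAt_id x)
  have he : (fun y => ⟪f y, f y⟫) = (fun y : E5 => ⟪y, y⟫) := by
    funext y
    rw [real_inner_self_eq_norm_sq, real_inner_self_eq_norm_sq, hf.norm]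
  rw [he] at h1
  have h3 := congrArg (fun L : E5 →L[ℝ] ℝ => L v) (h1.unique h2)
  simp only [ContinuousLinearMap.comp_apply, ContinuousLinearMap.prod_apply, fderivInnerCLM_apply,
    ContinuousLinearMap.id_apply] at h3
  rw [real_inner_comm (f x) (fderiv ℝ f x v), real_inner_comm x v] at h3
  linarith

theorem yb5 : Yb5Statement := by
  intro g G φ f θ p _hg _hG hGg _hφ hf hfφ hdf hrot
  obtain ⟨hp, hfix, hr⟩ := hrot
  have hnp : ‖vc p‖ = 1 := norm_vc p hp
  have hp0 : vc p ∈ Om (Fin 5) := by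
    intro h
    rw [h, norm_zero] at hnp
    exact zero_ne_one hnp
  have hfp : f (vc p) = vc p := by rw [hfφ p hp, hfix]
  refine ⟨hnp, hfp, ?_⟩
  intro v hv hv0
  obtain ⟨u, rfl⟩ : ∃ u : Fin 5 → ℝ, v = vc u := ⟨fun i => v i, (vc_surj v).symm⟩
  rw [inner_vc] at hv
  have hT : Tangent p u := ⟨hp, hv⟩
  have hu0 : u ≠ 0 := by
    intro h
    apply hv0
    rw [h]
    ext i
    simp [vc_apply]
  obtain ⟨h1, h2⟩ := hr u hT hu0
  have hT' : Tangent p (fderiv ℝ φ p u) := by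
    refine ⟨hp, ?_⟩
    rw [← inner_vc, ← hdf p u hT]
    have := inner_fderiv hf (vc p) hp0 (vc u)
    rw [hfp] at this
    rw [this, inner_vc, hv]
  rw [hdf p u hT]
  refine ⟨fun h => h1 (vc_inj h), ?_⟩
  rw [hGg p u u hT hT, hGg p u _ hT hT']
  exact h2

end Pool.Agent.ZRT.H39
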